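import Pool.Agent.Helper6.NX.GoalsD

/-! Project NX (MP_75608d_al), packet PAIRB: the moments of a product of random conjugates. -/

namespace Pool.Agent.Helper81.NX

open Equiv Pool.Agent.Helper6.NX Pool.Agent.Helper15.An

lemma pow_fac_le (t m : ℕ) :
    (((t + m : ℕ) : ℝ)) ^ m * (t.factorial : ℝ) ≤ Real.exp m * ((t + m).factorial : ℝ) := by
  induction m with
  | zero => simp
  | succ m ih =>
    have h1 : (((t + m : ℕ) : ℝ) + 1) ^ m ≤ Real.exp 1 * ((t + m : ℕ) : ℝ) ^ m := by
      rcases Nat.eq_zero_or_pos m with h0 | h0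
      · subst h0
        simp
      · have hN : (0 : ℝ) < ((t + m : ℕ) : ℝ) := by
          exact_mod_cast Nat.lt_of_lt_of_le h0 (Nat.le_add_left m t)
        set N : ℝ := ((t + m : ℕ) : ℝ) with hNdef
        have h2 : N + 1 ≤ N * Real.exp (1 / N) := by
          have h3 := Real.add_one_le_exp (1 / N)
          have h4 : N + 1 = N * (1 / N + 1) := by
            field_simp
            ring
          rw [h4]
          exact mul_le_mul_of_nonneg_left h3 hN.le
        have hmN : (m : ℝ) ≤ N := by
          rw [hNdef]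
          exact_mod_cast Nat.le_add_left m t
        calc (N + 1) ^ m ≤ (N * Real.exp (1 / N)) ^ m := pow_le_pow_left₀ (by linarith) h2 _
          _ = Real.exp (m * (1 / N)) * N ^ m := by
              rw [mul_pow, ← Real.exp_nat_mul, mul_comm]
          _ ≤ Real.exp 1 * N ^ m := by
              apply mul_le_mul_of_nonneg_right _ (pow_nonneg hN.le _)
              apply Real.exp_le_exp.2
              rw [mul_one_div, div_le_one hN]
              exact hmN
    have e1 : (((t + (m + 1) : ℕ) : ℝ)) = ((t + m : ℕ) : ℝ) + 1 := by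
      push_cast
      ring
    have e2 : ((t + (m + 1)).factorial : ℝ) = (((t + m : ℕ) : ℝ) + 1) * ((t + m).factorial : ℝ) := by
      rw [← add_assoc, Nat.factorial_succ]
      push_cast
      ring
    have e3 : Real.exp ((m + 1 : ℕ) : ℝ) = Real.exp m * Real.exp 1 := by
      rw [← Real.exp_add]
      push_cast
      ring_nf
    rw [e1, e2, e3, pow_succ]
    have hf : (0 : ℝ) ≤ (t.factorial : ℝ) := by positivity
    have hN0 : (0 : ℝ) ≤ ((t + m : ℕ) : ℝ) + 1 := by positivity
    calc (((t + m : ℕ) : ℝ) + 1) ^ m * (((t + m : ℕ) : ℝ) + 1) * (t.factorial : ℝ)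
        ≤ (Real.exp 1 * ((t + m : ℕ) : ℝ) ^ m) * (((t + m : ℕ) : ℝ) + 1) * (t.factorial : ℝ) := by
          gcongr
      _ = Real.exp 1 * (((t + m : ℕ) : ℝ) + 1) *
            (((t + m : ℕ) : ℝ) ^ m * (t.factorial : ℝ)) := by ring
      _ ≤ Real.exp 1 * (((t + m : ℕ) : ℝ) + 1) *
            (Real.exp m * ((t + m).factorial : ℝ)) := by
          gcongr
      _ = Real.exp m * Real.exp 1 * ((((t + m : ℕ) : ℝ) + 1) * ((t + m).factorial : ℝ)) := by ring

/-- the number of sets of `f` points containing `T` -/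
lemma card_super {n : ℕ} (f : ℕ) (T : Finset (Fin n)) :
    ((Finset.powersetCard f (Finset.univ : Finset (Fin n))).filter (fun A => T ⊆ A)).card ≤
      (n - T.card).choose (f - T.card) := by
  have h1 : (Finset.powersetCard (f - T.card) (Finset.univ \ T)).card =
      (n - T.card).choose (f - T.card) := by
    rw [Finset.card_powersetCard, Finset.card_sdiff_of_subset (Finset.subset_univ T),
      Finset.card_univ, Fintype.card_fin]
  rw [← h1]
  apply Finset.card_le_card_of_injOn (fun A => A \ T)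
  · intro A hA
    rw [Finset.mem_coe, Finset.mem_filter, Finset.mem_powersetCard] at hA
    rw [Finset.mem_coe, Finset.mem_powersetCard]
    refine ⟨Finset.sdiff_subset_sdiff hA.1.1 (le_refl T), ?_⟩
    rw [Finset.card_sdiff_of_subset hA.2, hA.1.2]
  · intro A hA B hB hAB
    rw [Finset.mem_coe, Finset.mem_filter] at hA hB
    have hAB' : A \ T = B \ T := hAB
    rw [← Finset.sdiff_union_of_subset hA.2, ← Finset.sdiff_union_of_subset hB.2, hAB']

/-- the count of the permutations `y` -/
lemma card_y {n : ℕ} (V V' : Perm (Fin n)) (A : Finset (Fin n)) :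
    (Finset.univ.filter (fun y : Perm (Fin n) =>
      ∀ u ∈ A, (V * (y * V' * y⁻¹)) u = u)).card =
    Nat.card {e : Perm (Fin n) // ∀ u ∈ A, e (V⁻¹ u) = V' (e u)} := by
  classical
  rw [Nat.card_eq_fintype_card, Fintype.card_subtype]
  apply Finset.card_bij (fun y _ => y⁻¹)
  · intro y hy
    rw [Finset.mem_filter] at hy ⊢
    refine ⟨Finset.mem_univ _, fun u hu => ?_⟩
    have h := hy.2 u hu
    rw [Perm.mul_apply, Perm.mul_apply, Perm.mul_apply] at h
    have h2 : y (V' (y⁻¹ u)) = V⁻¹ u := by
      rw [Perm.eq_inv_iff_eq]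
      exact h
    rw [← h2]
    exact Equiv.symm_apply_apply y _
  · intro y _ y' _ h
    exact inv_injective h
  · intro e he
    rw [Finset.mem_filter] at he
    refine ⟨e⁻¹, ?_, inv_inv e⟩
    rw [Finset.mem_filter]
    refine ⟨Finset.mem_univ _, fun u hu => ?_⟩
    rw [Perm.mul_apply, Perm.mul_apply, Perm.mul_apply, inv_inv, ← he.2 u hu]
    have h1 : e⁻¹ (e (V⁻¹ u)) = V⁻¹ u := Equiv.symm_apply_apply e _
    rw [h1]
    exact Equiv.apply_symm_apply V u

lemma desc_eq {n : ℕ} (f : ℕ) (g : Perm (Fin n)) :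
    ((fixc g).descFactorial f : ℝ) = (f.factorial : ℝ) *
      ∑ A ∈ Finset.powersetCard f (Finset.univ : Finset (Fin n)),
        if ∀ u ∈ A, g u = u then (1 : ℝ) else 0 := by
  rw [Nat.descFactorial_eq_factorial_mul_choose]
  push_cast
  congr 1
  rw [Finset.sum_boole]
  congr 1
  unfold fixc
  rw [← Finset.card_powersetCard]
  congr 1
  ext A
  rw [Finset.mem_powersetCard, Finset.mem_filter, Finset.mem_powersetCard]
  constructor
  · rintro ⟨h1, h2⟩
    exact ⟨⟨Finset.subset_univ _, h2⟩, fun u hu => (Finset.mem_filter.1 (h1 hu)).2⟩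
  · rintro ⟨⟨_, h2⟩, h3⟩
    exact ⟨fun u hu => Finset.mem_filter.2 ⟨Finset.mem_univ _, h3 u hu⟩, h2⟩

theorem thmPAIRB (hpaira : S_PAIRA) : S_PAIRB := by
  intro n f V V' hf
  classical
  set P := Finset.powersetCard f (Finset.univ : Finset (Fin n)) with hP
  have hpos : ∀ k, k ≤ f → (0 : ℝ) < (n : ℝ) ^ k := by
    intro k hk
    rcases Nat.eq_zero_or_pos n with h0 | h0
    · have : k = 0 := by omega
      subst this
      simp
    · have : (0 : ℝ) < n := by exact_mod_cast h0
      positivity
  choose S hSA hSinv hSmax p hp hpn hcard using hpaira n V V'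
  -- rewriting the left side
  have hL : ∑ y : Perm (Fin n), ((fixc (V * (y * V' * y⁻¹))).descFactorial f : ℝ) =
      (f.factorial : ℝ) * ∑ A ∈ P,
        (Nat.card {e : Perm (Fin n) // ∀ u ∈ A, e (V⁻¹ u) = V' (e u)} : ℝ) := by
    have e1 : ∀ y : Perm (Fin n), ((fixc (V * (y * V' * y⁻¹))).descFactorial f : ℝ) =
        (f.factorial : ℝ) * ∑ A ∈ P,
          if ∀ u ∈ A, (V * (y * V' * y⁻¹)) u = u then (1 : ℝ) else 0 := by
      intro y
      rw [desc_eq]
    rw [Finset.sum_congr rfl fun y _ => e1 y, ← Finset.mul_sum, Finset.sum_comm]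
    congr 1
    refine Finset.sum_congr rfl fun A _ => ?_
    rw [Finset.sum_boole, ← card_y]
  -- the bound for a single set
  set c0 : ℝ := Real.exp (2 * f) * (f.factorial : ℝ) / (n : ℝ) ^ f with hc0
  have hc0n : 0 ≤ c0 := by
    have := hpos f le_rfl
    positivity
  have hn0 : (0 : ℝ) < (n.factorial : ℝ) := by exact_mod_cast n.factorial_pos
  have hA : ∀ A ∈ P, (n.factorial : ℝ)⁻¹ * ((f.factorial : ℝ) *
      (Nat.card {e : Perm (Fin n) // ∀ u ∈ A, e (V⁻¹ u) = V' (e u)} : ℝ)) ≤
      c0 * (emb V V' (S A) : ℝ) := by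
    intro A hAP
    have hAc : A.card = f := (Finset.mem_powersetCard.1 hAP).2
    have h1 := hcard A
    have h2 := hp A
    have h3 := hpn A
    rw [hAc] at h1 h2 h3
    have h4 := pow_fac_le (n - (f + p A)) (f + p A)
    have h5 : n - (f + p A) + (f + p A) = n := Nat.sub_add_cancel h3
    rw [h5] at h4
    have h6 : Real.exp ((f + p A : ℕ) : ℝ) ≤ Real.exp (2 * f) := by
      apply Real.exp_le_exp.2
      have : (p A : ℝ) ≤ f := by exact_mod_cast h2
      push_cast
      linarith
    have h7 : (n : ℝ) ^ (f + p A) * ((n - (f + p A)).factorial : ℝ) ≤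
        Real.exp (2 * f) * (n.factorial : ℝ) :=
      h4.trans (mul_le_mul_of_nonneg_right h6 hn0.le)
    have h8 : (n.factorial : ℝ)⁻¹ * (((n - (f + p A)).factorial : ℝ) * (n : ℝ) ^ (p A)) ≤
        Real.exp (2 * f) / (n : ℝ) ^ f := by
      rw [le_div_iff₀ (hpos f le_rfl), inv_mul_eq_div, div_mul_eq_mul_div, div_le_iff₀ hn0]
      calc ((n - (f + p A)).factorial : ℝ) * (n : ℝ) ^ (p A) * (n : ℝ) ^ f
          = (n : ℝ) ^ (f + p A) * ((n - (f + p A)).factorial : ℝ) := by
            rw [pow_add]
            ring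
        _ ≤ _ := h7
    calc (n.factorial : ℝ)⁻¹ * ((f.factorial : ℝ) *
          (Nat.card {e : Perm (Fin n) // ∀ u ∈ A, e (V⁻¹ u) = V' (e u)} : ℝ))
        ≤ (n.factorial : ℝ)⁻¹ * ((f.factorial : ℝ) *
          (((n - (f + p A)).factorial : ℝ) * (n : ℝ) ^ (p A) * (emb V V' (S A) : ℝ))) := by
          gcongr
      _ = (f.factorial : ℝ) * (emb V V' (S A) : ℝ) *
          ((n.factorial : ℝ)⁻¹ * (((n - (f + p A)).factorial : ℝ) * (n : ℝ) ^ (p A))) := by ring
      _ ≤ (f.factorial : ℝ) * (emb V V' (S A) : ℝ) * (Real.exp (2 * f) / (n : ℝ) ^ f) := by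
          gcongr
      _ = c0 * (emb V V' (S A) : ℝ) := by
          rw [hc0]
          ring
  -- grouping
  have hgroup : ∑ A ∈ P, (emb V V' (S A) : ℝ) ≤ ∑ s ∈ Finset.range (f + 1),
      ((n - s).choose (f - s) : ℝ) * II s V V' := by
    calc ∑ A ∈ P, (emb V V' (S A) : ℝ)
        ≤ ∑ A ∈ P, ∑ s ∈ Finset.range (f + 1),
          ∑ T ∈ (Finset.powersetCard s (Finset.univ : Finset (Fin n))).filter
            (fun T => im V T = T), if T ⊆ A then (emb V V' T : ℝ) else 0 := by
          refine Finset.sum_le_sum fun A hAP => ?_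
          have hAc : A.card = f := (Finset.mem_powersetCard.1 hAP).2
          have hs : (S A).card ∈ Finset.range (f + 1) := by
            rw [Finset.mem_range, Nat.lt_succ_iff, ← hAc]
            exact Finset.card_le_card (hSA A)
          have hT : S A ∈ (Finset.powersetCard (S A).card (Finset.univ : Finset (Fin n))).filter
              (fun T => im V T = T) := by
            rw [Finset.mem_filter, Finset.mem_powersetCard]
            exact ⟨⟨Finset.subset_univ _, rfl⟩, hSinv A⟩
          have hnn : ∀ s, ∀ T ∈ (Finset.powersetCard s (Finset.univ : Finset (Fin n))).filter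
              (fun T => im V T = T), (0 : ℝ) ≤ if T ⊆ A then (emb V V' T : ℝ) else 0 := by
            intro s T _
            split_ifs <;> positivity
          refine le_trans ?_ (Finset.single_le_sum (f := fun s =>
            ∑ T ∈ (Finset.powersetCard s (Finset.univ : Finset (Fin n))).filter
              (fun T => im V T = T), if T ⊆ A then (emb V V' T : ℝ) else 0)
            (fun s _ => Finset.sum_nonneg (hnn s)) hs)
          refine le_trans ?_ (Finset.single_le_sum (f := fun T =>
            if T ⊆ A then (emb V V' T : ℝ) else 0) (hnn (S A).card) hT)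
          rw [if_pos (hSA A)]
      _ = ∑ s ∈ Finset.range (f + 1),
          ∑ T ∈ (Finset.powersetCard s (Finset.univ : Finset (Fin n))).filter
            (fun T => im V T = T), ∑ A ∈ P, if T ⊆ A then (emb V V' T : ℝ) else 0 := by
          rw [Finset.sum_comm]
          refine Finset.sum_congr rfl fun s _ => ?_
          rw [Finset.sum_comm]
      _ ≤ ∑ s ∈ Finset.range (f + 1), ((n - s).choose (f - s) : ℝ) * II s V V' := by
          refine Finset.sum_le_sum fun s _ => ?_
          unfold II
          rw [Finset.mul_sum]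
          refine Finset.sum_le_sum fun T hT => ?_
          have hTc : T.card = s :=
            (Finset.mem_powersetCard.1 (Finset.mem_filter.1 hT).1).2
          rw [← Finset.sum_filter, Finset.sum_const, nsmul_eq_mul]
          have h1 := card_super f T
          rw [hTc] at h1
          have h2 : ((P.filter (fun A => T ⊆ A)).card : ℝ) ≤ ((n - s).choose (f - s) : ℝ) := by
            exact_mod_cast h1
          exact mul_le_mul_of_nonneg_right h2 (by positivity)
  -- the coefficients
  have hcoef : ∀ s ∈ Finset.range (f + 1), c0 * ((n - s).choose (f - s) : ℝ) ≤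
      Real.exp (2 * f) * ((f : ℝ) / n) ^ s := by
    intro s hs
    have hsf : s ≤ f := Nat.lt_succ_iff.1 (Finset.mem_range.1 hs)
    have h1 : f.factorial * (n - s).choose (f - s) ≤ f ^ s * n ^ (f - s) := by
      calc f.factorial * (n - s).choose (f - s)
          = f.descFactorial s * ((f - s).factorial * (n - s).choose (f - s)) := by
            rw [← Nat.factorial_mul_descFactorial hsf]
            ring
        _ = f.descFactorial s * (n - s).descFactorial (f - s) := by
            rw [Nat.descFactorial_eq_factorial_mul_choose (n - s) (f - s)]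
        _ ≤ f ^ s * (n - s) ^ (f - s) :=
            Nat.mul_le_mul (Nat.descFactorial_le_pow _ _) (Nat.descFactorial_le_pow _ _)
        _ ≤ f ^ s * n ^ (f - s) :=
            Nat.mul_le_mul_left _ (Nat.pow_le_pow_left (Nat.sub_le _ _) _)
    have h2 : (f.factorial : ℝ) * ((n - s).choose (f - s) : ℝ) ≤
        (f : ℝ) ^ s * (n : ℝ) ^ (f - s) := by exact_mod_cast h1
    have h3 : (n : ℝ) ^ f = (n : ℝ) ^ s * (n : ℝ) ^ (f - s) := by
      rw [← pow_add, Nat.add_sub_cancel' hsf]
    have hs1 := hpos s hsf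
    have hs2 := hpos (f - s) (Nat.sub_le _ _)
    calc c0 * ((n - s).choose (f - s) : ℝ)
        = Real.exp (2 * f) * ((f.factorial : ℝ) * ((n - s).choose (f - s) : ℝ)) /
          (n : ℝ) ^ f := by
          rw [hc0]
          ring
      _ ≤ Real.exp (2 * f) * ((f : ℝ) ^ s * (n : ℝ) ^ (f - s)) / (n : ℝ) ^ f := by
          have := hpos f le_rfl
          gcongr
      _ = Real.exp (2 * f) * ((f : ℝ) / n) ^ s := by
          rw [h3, div_pow, mul_div_assoc]
          congr 1
          rw [div_eq_div_iff (mul_pos hs1 hs2).ne' hs1.ne']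
          ring
  have hII : ∀ s, 0 ≤ II s V V' := fun s => Finset.sum_nonneg fun T _ => by positivity
  rw [hL]
  calc (n.factorial : ℝ)⁻¹ * ((f.factorial : ℝ) * ∑ A ∈ P,
        (Nat.card {e : Perm (Fin n) // ∀ u ∈ A, e (V⁻¹ u) = V' (e u)} : ℝ))
      = ∑ A ∈ P, (n.factorial : ℝ)⁻¹ * ((f.factorial : ℝ) *
        (Nat.card {e : Perm (Fin n) // ∀ u ∈ A, e (V⁻¹ u) = V' (e u)} : ℝ)) := by
        rw [Finset.mul_sum, Finset.mul_sum]
    _ ≤ ∑ A ∈ P, c0 * (emb V V' (S A) : ℝ) := Finset.sum_le_sum hA
    _ = c0 * ∑ A ∈ P, (emb V V' (S A) : ℝ) := by rw [Finset.mul_sum]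
    _ ≤ c0 * ∑ s ∈ Finset.range (f + 1), ((n - s).choose (f - s) : ℝ) * II s V V' :=
        mul_le_mul_of_nonneg_left hgroup hc0n
    _ = ∑ s ∈ Finset.range (f + 1), (c0 * ((n - s).choose (f - s) : ℝ)) * II s V V' := by
        rw [Finset.mul_sum]
        exact Finset.sum_congr rfl fun s _ => by ring
    _ ≤ ∑ s ∈ Finset.range (f + 1), (Real.exp (2 * f) * ((f : ℝ) / n) ^ s) * II s V V' :=
        Finset.sum_le_sum fun s hs => mul_le_mul_of_nonneg_right (hcoef s hs) (hII s)
    _ = Real.exp (2 * f) * ∑ s ∈ Finset.range (f + 1), ((f : ℝ) / n) ^ s * II s V V' := by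
        rw [Finset.mul_sum]
        exact Finset.sum_congr rfl fun s _ => by ring

end Pool.Agent.Helper81.NX
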